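import Pool.Agent.Helper4.SH4.GP

/-!
# SH4: the form of the lemma for pairs `a s`, `B a s`
-/

set_option autoImplicit false

namespace Pool.Agent.SH4

open Module Polynomial

/-- For all `B` outside a finite set the `2 r` points `a s`, `B a s` are different and the `r (n + 1)` forms are in general
position. -/
theorem gp5 {k : Type*} [Field k] [CharZero k] {r : ℕ} (hr : 0 < r) (a : Fin r → k) (ha : Function.Injective a)
    (ha0 : ∀ s, a s ≠ 0) (n : ℕ) : ∃ E : Finset k, ∀ B : k, B ∉ E →
      Function.Injective (Sum.elim a fun s => B * a s) ∧ ∀ I : Finset (Fin r × Fin (n + 1)), I.card ≤ n + 1 →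
        LinearIndependent k fun i : I => fun j : Fin (n + 1) =>
          (((X - C (a i.1.1)) ^ (i.1.2 : ℕ) * (X - C (B * a i.1.1)) ^ (n - (i.1.2 : ℕ)) : k[X])).coeff j := by
  classical
  obtain ⟨D, hD0, hD⟩ := gp4 hr a ha ha0 n
  refine ⟨((D.roots.toFinset.image fun h => h + 1) ∪ (Finset.univ.image fun p : Fin r × Fin r => a p.1 / a p.2)) ∪ {0, 1},
    fun B hB => ?_⟩
  rw [Finset.mem_union, Finset.mem_union, not_or, not_or] at hB
  obtain ⟨⟨h1, h2⟩, h3⟩ := hB
  have hB0 : B ≠ 0 := by
    rintro rfl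
    exact h3 (by simp)
  have hB1 : B - 1 ≠ 0 := by
    intro h
    rw [sub_eq_zero] at h
    exact h3 (by rw [h]; simp)
  have hBe : D.eval (B - 1) ≠ 0 := by
    intro h
    apply h1
    refine Finset.mem_image.2 ⟨B - 1, ?_, by ring⟩
    rw [Multiset.mem_toFinset, Polynomial.mem_roots hD0]
    exact h
  refine ⟨?_, fun I hI => ?_⟩
  · have h4 : ∀ s t, a s ≠ B * a t := by
      intro s t h
      apply h2
      refine Finset.mem_image.2 ⟨(s, t), Finset.mem_univ _, ?_⟩
      show a s / a t = B
      rw [h, mul_div_cancel_right₀ _ (ha0 t)]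
    rintro (s | s) (t | t) h
    · exact congrArg Sum.inl (ha h)
    · exact absurd h (h4 s t)
    · exact absurd h.symm (h4 t s)
    · exact congrArg Sum.inr (ha (mul_left_cancel₀ hB0 h))
  · have h4 := hD (B - 1) hB1 hBe I hI
    have h5 : (fun i : I => fun j : Fin (n + 1) =>
        (((X - C (a i.1.1)) ^ (i.1.2 : ℕ) * (X - C (B * a i.1.1)) ^ (n - (i.1.2 : ℕ)) : k[X])).coeff j) =
        fun i : I => cf4 n (F4 a (B - 1) n i.1) := by
      funext i
      funext j
      show _ = (F4 a (B - 1) n i.1).coeff j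
      unfold F4
      have h6 : a i.1.1 + (B - 1) * a i.1.1 = B * a i.1.1 := by ring
      rw [h6]
    rw [h5]
    exact h4

end Pool.Agent.SH4
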