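import Mathlib

/-!
# SH4: the hyperplanes `(t - a)^j (t - b)^(n-j)` for `r` pairs `a, b` are in general position
-/

set_option autoImplicit false

namespace Pool.Agent.SH4

open Module Polynomial

/-- binomial coefficients at distinct numbers -/
theorem vander4 {k : Type*} [Field k] [CharZero k] {m : ℕ} (x : Fin m → ℕ) (hx : Function.Injective x) :
    ∃ γ : Fin m → Fin m → k, ∀ i l : Fin m, ∑ a, γ i a * (Nat.choose (x a) l : k) = if i = l then 1 else 0 := by
  classical
  let A : Matrix (Fin m) (Fin m) k := Matrix.of fun a l => (Nat.choose (x a) l : k)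
  have h1 : (Matrix.vandermonde fun a => (x a : k)).det ≠ 0 := by
    rw [Matrix.det_vandermonde_ne_zero_iff]
    intro a b h
    exact hx (Nat.cast_injective h)
  have h2 := Matrix.det_eval_matrixOfPolynomials_eq_det_vandermonde (fun a => (x a : k)) (fun l : Fin m => descPochhammer k l)
    (fun l => descPochhammer_natDegree k l) (fun l => monic_descPochhammer k l)
  have h3 : (Matrix.of fun a l : Fin m => (descPochhammer k l).eval (x a : k)) =
      Matrix.of fun a l : Fin m => ((Nat.factorial l : ℕ) : k) * A a l := by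
    ext a l
    show (descPochhammer k l).eval (x a : k) = ((Nat.factorial l : ℕ) : k) * (Nat.choose (x a) l : k)
    rw [descPochhammer_eval_eq_descFactorial, Nat.descFactorial_eq_factorial_mul_choose]
    push_cast
    ring
  rw [h2, h3, Matrix.det_mul_row] at h1
  have hA : IsUnit A.det := isUnit_iff_ne_zero.2 (right_ne_zero_of_mul h1)
  refine ⟨fun i a => A⁻¹ i a, fun i l => ?_⟩
  have h4 := congrFun (congrFun (Matrix.nonsing_inv_mul A hA) i) l
  rw [Matrix.mul_apply, Matrix.one_apply] at h4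
  exact h4

/-- Linear independence is an open condition. -/
theorem perturb4 {k : Type*} [Field k] {ι : Type*} [Fintype ι] [DecidableEq ι] {m : ℕ} (v : ι → Fin m → k[X])
    (h0 : LinearIndependent k fun i => fun j => (v i j).eval 0) :
    ∃ D : k[X], D ≠ 0 ∧ ∀ h : k, D.eval h ≠ 0 → LinearIndependent k fun i => fun j => (v i j).eval h := by
  let L : (ι → k) →ₗ[k] (Fin m → k) := Fintype.linearCombination k fun i j => (v i j).eval 0
  have hL : LinearMap.ker L = ⊥ := by
    rw [LinearMap.ker_eq_bot']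
    intro c hc
    funext i
    exact Fintype.linearIndependent_iff.1 h0 c (by simpa [L, Fintype.linearCombination_apply] using hc) i
  obtain ⟨g, hg⟩ := L.exists_leftInverse_of_injective hL
  have hgi : ∀ i i', g (fun j => (v i j).eval 0) i' = if i = i' then 1 else 0 := by
    intro i i'
    have h1 : L (Pi.single i 1) = fun j => (v i j).eval 0 := by
      rw [Fintype.linearCombination_apply_single, one_smul]
    have h2 := congrFun (LinearMap.congr_fun hg (Pi.single i 1)) i'
    rw [LinearMap.comp_apply, h1, LinearMap.id_apply] at h2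
    rw [h2, Pi.single_apply]
    simp only [eq_comm]
  obtain ⟨e, he⟩ : ∃ e : Fin m → ι → k, ∀ (w : Fin m → k) i', g w i' = ∑ j, w j * e j i' :=
    ⟨fun j => g fun j' => if j = j' then 1 else 0, fun w i' => by
      rw [LinearMap.pi_apply_eq_sum_univ g w, Finset.sum_apply]
      rfl⟩
  let P : Matrix ι ι k[X] := Matrix.of fun i i' => ∑ j, v i j * C (e j i')
  have hP : ∀ h : k, P.map (Polynomial.eval h) = Matrix.of fun i i' => g (fun j => (v i j).eval h) i' := by
    intro h
    ext i i'
    show Polynomial.eval h (∑ j, v i j * C (e j i')) = g (fun j => (v i j).eval h) i'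
    rw [he, Polynomial.eval_finsetSum]
    exact Finset.sum_congr rfl fun j _ => by rw [Polynomial.eval_mul, Polynomial.eval_C]
  have hdet : ∀ h : k, P.det.eval h = (Matrix.of fun i i' => g (fun j => (v i j).eval h) i').det := by
    intro h
    rw [← hP h]
    have := RingHom.map_det (Polynomial.evalRingHom h) P
    rw [Polynomial.coe_evalRingHom] at this
    rw [this]
    rfl
  refine ⟨P.det, ?_, fun h hh => ?_⟩
  · intro h1
    have h2 := hdet 0
    rw [h1, Polynomial.eval_zero] at h2
    have h3 : (Matrix.of fun i i' => g (fun j => (v i j).eval 0) i') = (1 : Matrix ι ι k) := by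
      ext i i'
      rw [Matrix.one_apply]
      exact hgi i i'
    rw [h3, Matrix.det_one] at h2
    exact one_ne_zero h2.symm
  · rw [hdet h] at hh
    have h1 := Matrix.linearIndependent_rows_of_det_ne_zero hh
    exact LinearIndependent.of_comp g h1

/-- the coefficients of a polynomial -/
noncomputable def cf4 {k : Type*} [Field k] (n : ℕ) : k[X] →ₗ[k] (Fin (n + 1) → k) :=
  LinearMap.pi fun j => Polynomial.lcoeff k j

theorem cf4_apply {k : Type*} [Field k] (n : ℕ) (F : k[X]) (j : Fin (n + 1)) : cf4 n F j = F.coeff j := rfl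

private theorem coeffXC4 {k : Type*} [Field k] (c : k) (N t : ℕ) :
    ((X - C c) ^ N).coeff t = (-c) ^ (N - t) * (Nat.choose N t : k) := by
  rw [sub_eq_add_neg, ← Polynomial.C_neg, Polynomial.coeff_X_add_C_pow]

/-- The osculating spaces of the rational normal curve at different points are independent. -/
theorem herm4 {k : Type*} [Field k] [CharZero k] {ι : Type*} [Fintype ι] [DecidableEq ι] (c : ι → k)
    (hc : Function.Injective c) (m : ι → ℕ) (n : ℕ) (hm : ∑ s, m s = n + 1) :
    LinearIndependent k fun p : (s : ι) × Fin (m s) => cf4 n ((X - C (c p.1)) ^ (n - (p.2 : ℕ))) := by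
  refine linearIndependent_of_top_le_span_of_card_eq_finrank ?_ ?_
  swap
  · rw [Fintype.card_sigma, Module.finrank_fin_fun]
    simpa using hm
  by_contra hcon
  rw [top_le_iff] at hcon
  obtain ⟨f, hf0, hf⟩ := Submodule.exists_le_ker_of_lt_top _ (lt_top_iff_ne_top.2 hcon)
  apply hf0
  have hmn : ∀ s, m s ≤ n + 1 := fun s => by
    rw [← hm]
    exact Finset.single_le_sum (f := m) (fun s _ => Nat.zero_le _) (Finset.mem_univ s)
  obtain ⟨φ, hφ⟩ : ∃ φ : Fin (n + 1) → k, ∀ w : Fin (n + 1) → k, f w = ∑ t, w t * φ t :=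
    ⟨fun t => f fun t' => if t = t' then 1 else 0, fun w => LinearMap.pi_apply_eq_sum_univ f w⟩
  have hf' : ∀ s (i : ℕ), i < m s → ∑ t : Fin (n + 1), ((X - C (c s)) ^ (n - i)).coeff t * φ t = 0 := by
    intro s i hi
    rw [← LinearMap.mem_ker.1 (hf (Submodule.subset_span ⟨⟨s, ⟨i, hi⟩⟩, rfl⟩)), hφ]
    rfl
  let ψ : k[X] := ∑ t : Fin (n + 1), monomial (n - (t : ℕ)) ((Nat.choose n t : k) * (-1) ^ (n - (t : ℕ)) * φ t)
  have hψd : ψ.natDegree ≤ n := by
    refine Polynomial.natDegree_sum_le_of_forall_le _ _ fun t _ => ?_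
    exact (Polynomial.natDegree_monomial_le _).trans (Nat.sub_le _ _)
  have hder : ∀ s (i : ℕ), i < m s → (hasseDeriv i ψ).eval (c s) = 0 := by
    intro s i hi
    have h1 : (hasseDeriv i ψ).eval (c s) = (-1) ^ i * (Nat.choose n i : k) *
        ∑ t : Fin (n + 1), ((X - C (c s)) ^ (n - i)).coeff t * φ t := by
      show (hasseDeriv i (∑ t : Fin (n + 1), monomial (n - (t : ℕ)) ((Nat.choose n t : k) * (-1) ^ (n - (t : ℕ)) * φ t))).eval
        (c s) = _
      rw [map_sum, Polynomial.eval_finsetSum, Finset.mul_sum]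
      refine Finset.sum_congr rfl fun t _ => ?_
      rw [Polynomial.hasseDeriv_monomial, Polynomial.eval_monomial, coeffXC4]
      have ht : (t : ℕ) ≤ n := Nat.lt_succ_iff.1 t.2
      by_cases h2 : (t : ℕ) + i ≤ n
      · have h3 : Nat.choose n t * Nat.choose (n - t) i = Nat.choose n i * Nat.choose (n - i) t := by
          have h4 := Nat.choose_mul (n := n) (k := t + i) (s := i) (by omega)
          have h5 := Nat.choose_mul (n := n) (k := t + i) (s := t) (by omega)
          rw [Nat.add_sub_cancel] at h4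
          rw [Nat.add_sub_cancel_left] at h5
          rw [← h5, ← h4, Nat.choose_symm_add]
        have h3' : (Nat.choose n t : k) * Nat.choose (n - t) i = Nat.choose n i * Nat.choose (n - i) t := by
          exact_mod_cast h3
        have h4 : n - (t : ℕ) = i + (n - i - (t : ℕ)) := by omega
        have h5 : n - (t : ℕ) - i = n - i - (t : ℕ) := by omega
        have h6 : (-1 : k) ^ (n - (t : ℕ)) = (-1) ^ i * (-1) ^ (n - i - (t : ℕ)) := by
          rw [← pow_add]
          congr 1
        rw [h5, neg_pow (c s), h6]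
        have : (Nat.choose (n - (t : ℕ)) i : k) * (Nat.choose n t * ((-1) ^ i * (-1) ^ (n - i - (t : ℕ))) * φ t) *
            c s ^ (n - i - (t : ℕ)) = ((Nat.choose n t : k) * Nat.choose (n - t) i) * ((-1) ^ i * (-1) ^ (n - i - (t : ℕ))) * φ t *
            c s ^ (n - i - (t : ℕ)) := by ring
        rw [this, h3']
        ring
      · have h3 : Nat.choose (n - (t : ℕ)) i = 0 := Nat.choose_eq_zero_of_lt (by omega)
        have h4 : Nat.choose n i = 0 ∨ Nat.choose (n - i) (t : ℕ) = 0 := by
          right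
          have := hmn s
          exact Nat.choose_eq_zero_of_lt (by omega)
        rw [h3]
        rcases h4 with h4 | h4
        · rw [h4]; simp
        · rw [h4]; simp
    rw [h1, hf' s i hi, mul_zero]
  have hdvd : ∀ s, (X - C (c s)) ^ m s ∣ ψ := by
    intro s
    rw [Polynomial.X_sub_C_pow_dvd_iff, Polynomial.X_pow_dvd_iff]
    intro i hi
    rw [← Polynomial.taylor_apply, Polynomial.taylor_coeff]
    exact hder s i hi
  have hprod : ∏ s, (X - C (c s)) ^ m s ∣ ψ := by
    refine Finset.prod_dvd_of_coprime ?_ fun s _ => hdvd s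
    intro s _ s' _ hss
    exact (Polynomial.isCoprime_X_sub_C_of_isUnit_sub (sub_ne_zero.2 fun h => hss (hc h)).isUnit).pow
  have hdeg : (∏ s, (X - C (c s)) ^ m s).natDegree = n + 1 := by
    rw [Polynomial.natDegree_prod_of_monic _ _ fun s _ => (Polynomial.monic_X_sub_C _).pow _, ← hm]
    refine Finset.sum_congr rfl fun s _ => ?_
    rw [(Polynomial.monic_X_sub_C (c s)).natDegree_pow, Polynomial.natDegree_X_sub_C, mul_one]
  have hψ0 : ψ = 0 := Polynomial.eq_zero_of_dvd_of_natDegree_lt hprod (by rw [hdeg]; omega)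
  have hφ0 : ∀ t, φ t = 0 := by
    intro t
    have ht : (t : ℕ) ≤ n := Nat.lt_succ_iff.1 t.2
    have h1 : ψ.coeff (n - (t : ℕ)) = (Nat.choose n t : k) * (-1) ^ (n - (t : ℕ)) * φ t := by
      show (∑ t : Fin (n + 1), monomial (n - (t : ℕ)) ((Nat.choose n t : k) * (-1) ^ (n - (t : ℕ)) * φ t)).coeff
        (n - (t : ℕ)) = _
      rw [Polynomial.finsetSum_coeff, Finset.sum_eq_single t]
      · rw [Polynomial.coeff_monomial, if_pos rfl]
      · intro t' _ htt
        rw [Polynomial.coeff_monomial, if_neg]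
        intro h
        apply htt
        have := Nat.lt_succ_iff.1 t'.2
        exact Fin.ext (by omega)
      · intro h
        exact absurd (Finset.mem_univ t) h
    rw [hψ0, Polynomial.coeff_zero] at h1
    have h2 : (Nat.choose n t : k) * (-1) ^ (n - (t : ℕ)) ≠ 0 :=
      mul_ne_zero (Nat.cast_ne_zero.2 (Nat.choose_pos ht).ne') (pow_ne_zero _ (neg_ne_zero.2 one_ne_zero))
    exact (mul_eq_zero.1 h1.symm).resolve_left h2
  refine LinearMap.ext fun w => ?_
  rw [hφ]
  simp [hφ0]

/-- the form with zeros of order `j` at `a` and `n - j` at `a + h a` -/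
noncomputable def F4 {k : Type*} [Field k] {r : ℕ} (c : Fin r → k) (h : k) (n : ℕ) (p : Fin r × Fin (n + 1)) : k[X] :=
  (X - C (c p.1)) ^ (p.2 : ℕ) * (X - C (c p.1 + h * c p.1)) ^ (n - (p.2 : ℕ))

private theorem expand4 {k : Type*} [Field k] {r : ℕ} (c : Fin r → k) (h : k) (n : ℕ) (s : Fin r) (j : Fin (n + 1)) :
    F4 c h n (s, j) = ∑ l : Fin (n + 1), C ((Nat.choose (n - (j : ℕ)) l : k) * (-(h * c s)) ^ (l : ℕ)) *
      (X - C (c s)) ^ (n - (l : ℕ)) := by
  have hj : (j : ℕ) ≤ n := Nat.lt_succ_iff.1 j.2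
  unfold F4
  have h1 : (X : k[X]) - C (c s + h * c s) = C (-(h * c s)) + (X - C (c s)) := by
    rw [C_neg, C_add]
    ring
  rw [h1, add_pow, Finset.mul_sum, Fin.sum_univ_eq_sum_range (fun l => C ((Nat.choose (n - (j : ℕ)) l : k) *
    (-(h * c s)) ^ l) * (X - C (c s)) ^ (n - l)) (n + 1)]
  rw [← Finset.sum_subset (Finset.range_mono (by omega : n - (j : ℕ) + 1 ≤ n + 1))]
  · refine Finset.sum_congr rfl fun l hl => ?_
    have hl' : l ≤ n - (j : ℕ) := Nat.lt_succ_iff.1 (Finset.mem_range.1 hl)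
    have h2 : n - l = (j : ℕ) + (n - (j : ℕ) - l) := by omega
    rw [h2, pow_add, C_mul, C_pow, ← C_eq_natCast]
    ring
  · intro l _ hl
    rw [Nat.choose_eq_zero_of_lt (by
      rw [Finset.mem_range] at hl
      omega), Nat.cast_zero, zero_mul, C_0, zero_mul]

private theorem gp4_card {k : Type*} [Field k] [CharZero k] {r : ℕ} (c : Fin r → k) (hc : Function.Injective c)
    (hc0 : ∀ s, c s ≠ 0) (n : ℕ) (I : Finset (Fin r × Fin (n + 1))) (hI : I.card = n + 1) :
    ∃ D : k[X], D ≠ 0 ∧ ∀ h : k, h ≠ 0 → D.eval h ≠ 0 → LinearIndependent k fun i : I => cf4 n (F4 c h n i.1) := by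
  classical
  let J : Fin r → Finset (Fin (n + 1)) := fun s => Finset.univ.filter fun j => (s, j) ∈ I
  let m : Fin r → ℕ := fun s => (J s).card
  have hm : ∑ s, m s = n + 1 := by
    rw [← hI, Finset.card_eq_sum_card_fiberwise (f := Prod.fst) (s := I) (t := Finset.univ) fun _ _ => Finset.mem_univ _]
    refine Finset.sum_congr rfl fun s _ => ?_
    refine Finset.card_bij (fun j _ => (s, j)) ?_ ?_ ?_
    · intro j hj
      exact Finset.mem_filter.2 ⟨(Finset.mem_filter.1 hj).2, rfl⟩
    · intro j _ j' _ hjj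
      exact (Prod.mk.inj hjj).2
    · rintro ⟨s', j⟩ hp
      obtain ⟨h1, h2⟩ := Finset.mem_filter.1 hp
      change s' = s at h2
      subst h2
      exact ⟨j, Finset.mem_filter.2 ⟨Finset.mem_univ _, h1⟩, rfl⟩
  have hmn : ∀ s, m s ≤ n + 1 := fun s => by
    rw [← hm]
    exact Finset.single_le_sum (f := m) (fun s _ => Nat.zero_le _) (Finset.mem_univ s)
  let e : ∀ s, Fin (m s) → Fin (n + 1) := fun s a => ((J s).equivFin.symm a : Fin (n + 1))
  have heI : ∀ s a, (s, e s a) ∈ I := fun s a => (Finset.mem_filter.1 ((J s).equivFin.symm a).2).2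
  have hei : ∀ s, Function.Injective (e s) := fun s a b hab => (J s).equivFin.symm.injective (Subtype.ext hab)
  let x : ∀ s, Fin (m s) → ℕ := fun s a => n - (e s a : ℕ)
  have hx : ∀ s, Function.Injective (x s) := by
    intro s a b hab
    have h1 := Nat.lt_succ_iff.1 (e s a).2
    have h2 := Nat.lt_succ_iff.1 (e s b).2
    have h3 : n - (e s a : ℕ) = n - (e s b : ℕ) := hab
    exact hei s (Fin.ext (by omega))
  choose γ hγ using fun s => vander4 (k := k) (x s) (hx s)
  let A : ∀ s, Fin (m s) → Fin (n + 1) → k[X] := fun s i l =>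
    if (l : ℕ) < m s then (if (i : ℕ) = l then 1 else 0) else
      C (∑ a, γ s i a * (Nat.choose (x s a) l : k)) * (C (-c s) * X) ^ ((l : ℕ) - i)
  let y : ∀ s : Fin r, Fin (n + 1) → Fin (n + 1) → k := fun s l => cf4 n ((X - C (c s)) ^ (n - (l : ℕ)))
  let v : ((s : Fin r) × Fin (m s)) → Fin (n + 1) → k[X] := fun p j => ∑ l, A p.1 p.2 l * C (y p.1 l j)
  have hv : ∀ (h : k) (p : (s : Fin r) × Fin (m s)), (fun j => (v p j).eval h) = ∑ l, (A p.1 p.2 l).eval h • y p.1 l := by
    intro h p
    funext j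
    show (∑ l, A p.1 p.2 l * C (y p.1 l j)).eval h = _
    rw [Polynomial.eval_finsetSum, Finset.sum_apply]
    exact Finset.sum_congr rfl fun l _ => by rw [Polynomial.eval_mul, Polynomial.eval_C, Pi.smul_apply, smul_eq_mul]
  have hv0 : ∀ p : (s : Fin r) × Fin (m s), (fun j => (v p j).eval 0) = cf4 n ((X - C (c p.1)) ^ (n - (p.2 : ℕ))) := by
    rintro ⟨s, i⟩
    have hi : (i : ℕ) < n + 1 := lt_of_lt_of_le i.2 (hmn s)
    rw [hv, Finset.sum_eq_single (⟨i, hi⟩ : Fin (n + 1))]
    · show (A s i ⟨i, hi⟩).eval 0 • y s ⟨i, hi⟩ = _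
      have h1 : A s i ⟨i, hi⟩ = 1 := by
        show (if (i : ℕ) < m s then (if (i : ℕ) = i then (1 : k[X]) else 0) else _) = 1
        rw [if_pos i.2, if_pos rfl]
      rw [h1, Polynomial.eval_one, one_smul]
    · intro l _ hl
      have hne : (i : ℕ) ≠ l := fun h => hl (Fin.ext h.symm)
      show (A s i l).eval 0 • y s l = 0
      have h1 : (A s i l).eval 0 = 0 := by
        show (if (l : ℕ) < m s then (if (i : ℕ) = l then (1 : k[X]) else 0) else _).eval 0 = 0
        by_cases h2 : (l : ℕ) < m s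
        · rw [if_pos h2, if_neg hne, Polynomial.eval_zero]
        · rw [if_neg h2, Polynomial.eval_mul, Polynomial.eval_pow, Polynomial.eval_mul, Polynomial.eval_X, mul_zero,
            zero_pow (by have := i.2; omega), mul_zero]
      rw [h1, zero_smul]
    · intro h
      exact absurd (Finset.mem_univ _) h
  obtain ⟨D, hD0, hD⟩ := perturb4 v (by
    have h1 := herm4 c hc m n hm
    have h2 : (fun p : (s : Fin r) × Fin (m s) => fun j => (v p j).eval 0) =
        fun p : (s : Fin r) × Fin (m s) => cf4 n ((X - C (c p.1)) ^ (n - (p.2 : ℕ))) := funext hv0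
    rw [h2]
    exact h1)
  refine ⟨D, hD0, fun h hh hDh => ?_⟩
  have h1 := hD h hDh
  have hcard : Fintype.card ((s : Fin r) × Fin (m s)) = finrank k (Fin (n + 1) → k) := by
    rw [Fintype.card_sigma, Module.finrank_fin_fun]
    simpa using hm
  have h2 : ⊤ ≤ Submodule.span k (Set.range fun (p : (s : Fin r) × Fin (m s)) => fun j => (v p j).eval h) :=
    (h1.span_eq_top_of_card_eq_finrank' hcard).ge
  refine linearIndependent_of_top_le_span_of_card_eq_finrank (h2.trans ?_) ?_
  swap
  · rw [Module.finrank_fin_fun, Fintype.card_coe, hI]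
  rw [Submodule.span_le]
  rintro _ ⟨⟨s, i⟩, rfl⟩
  have hch : (-(h * c s)) ^ (i : ℕ) ≠ 0 := pow_ne_zero _ (neg_ne_zero.2 (mul_ne_zero hh (hc0 s)))
  have h3 : (-(h * c s)) ^ (i : ℕ) • (fun j => (v ⟨s, i⟩ j).eval h) = ∑ a, γ s i a • cf4 n (F4 c h n (s, e s a)) := by
    have h4 : ∀ a, cf4 n (F4 c h n (s, e s a)) = ∑ l : Fin (n + 1), ((Nat.choose (x s a) l : k) * (-(h * c s)) ^ (l : ℕ)) • y s l := by
      intro a
      rw [expand4, map_sum]
      refine Finset.sum_congr rfl fun l _ => ?_
      rw [← Polynomial.smul_eq_C_mul, map_smul]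
    have h4' : ∑ a, γ s i a • cf4 n (F4 c h n (s, e s a)) = ∑ a, ∑ l : Fin (n + 1),
        γ s i a • (((Nat.choose (x s a) l : k) * (-(h * c s)) ^ (l : ℕ)) • y s l) :=
      Finset.sum_congr rfl fun a _ => by rw [h4 a, Finset.smul_sum]
    rw [hv, h4', Finset.smul_sum, Finset.sum_comm]
    refine Finset.sum_congr rfl fun l _ => ?_
    simp only [smul_smul]
    rw [← Finset.sum_smul]
    congr 1
    have h5 : ∑ a, γ s i a * ((Nat.choose (x s a) l : k) * (-(h * c s)) ^ (l : ℕ)) =
        (∑ a, γ s i a * (Nat.choose (x s a) l : k)) * (-(h * c s)) ^ (l : ℕ) := by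
      rw [Finset.sum_mul]
      exact Finset.sum_congr rfl fun a _ => by ring
    rw [h5]
    show (-(h * c s)) ^ (i : ℕ) * (if (l : ℕ) < m s then (if (i : ℕ) = l then (1 : k[X]) else 0) else
      C (∑ a, γ s i a * (Nat.choose (x s a) l : k)) * (C (-c s) * X) ^ ((l : ℕ) - i)).eval h = _
    by_cases h6 : (l : ℕ) < m s
    · rw [if_pos h6]
      have h7 := hγ s i ⟨l, h6⟩
      change ∑ a, γ s i a * (Nat.choose (x s a) l : k) = _ at h7
      rw [h7]
      by_cases h8 : (i : ℕ) = l
      · rw [if_pos h8, if_pos (Fin.ext h8), Polynomial.eval_one, h8]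
        ring
      · rw [if_neg h8, if_neg fun h9 => h8 (congrArg Fin.val h9), Polynomial.eval_zero]
        ring
    · rw [if_neg h6, Polynomial.eval_mul, Polynomial.eval_pow, Polynomial.eval_mul, Polynomial.eval_X, Polynomial.eval_C,
        Polynomial.eval_C]
      have h7 : (l : ℕ) = i + ((l : ℕ) - i) := by have := i.2; omega
      have h8 : (-(h * c s)) ^ (l : ℕ) = (-(h * c s)) ^ (i : ℕ) * (-(h * c s)) ^ ((l : ℕ) - i) := by
        rw [← pow_add, ← h7]
      rw [h8]
      have h9 : -c s * h = -(h * c s) := by ring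
      rw [h9]
      ring
  have h4 : (fun j => (v ⟨s, i⟩ j).eval h) = ((-(h * c s)) ^ (i : ℕ))⁻¹ • ∑ a, γ s i a • cf4 n (F4 c h n (s, e s a)) := by
    rw [← h3, smul_smul, inv_mul_cancel₀ hch, one_smul]
  show (fun j => (v ⟨s, i⟩ j).eval h) ∈ _
  rw [h4]
  refine Submodule.smul_mem _ _ (Submodule.sum_mem _ fun a _ => Submodule.smul_mem _ _ (Submodule.subset_span ?_))
  exact ⟨⟨(s, e s a), heI s a⟩, rfl⟩

/-- For all but finitely many `h` the `r (n + 1)` forms are in general position. -/
theorem gp4 {k : Type*} [Field k] [CharZero k] {r : ℕ} (hr : 0 < r) (c : Fin r → k) (hc : Function.Injective c)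
    (hc0 : ∀ s, c s ≠ 0) (n : ℕ) :
    ∃ D : k[X], D ≠ 0 ∧ ∀ h : k, h ≠ 0 → D.eval h ≠ 0 → ∀ I : Finset (Fin r × Fin (n + 1)), I.card ≤ n + 1 →
      LinearIndependent k fun i : I => cf4 n (F4 c h n i.1) := by
  classical
  choose! D hD0 hD using gp4_card c hc hc0 n
  refine ⟨∏ I ∈ (Finset.univ : Finset (Finset (Fin r × Fin (n + 1)))).filter (fun I => I.card = n + 1), D I,
    Finset.prod_ne_zero_iff.2 fun I hI => hD0 I (Finset.mem_filter.1 hI).2, fun h hh hDh I hI => ?_⟩
  have hcard : n + 1 ≤ (Finset.univ : Finset (Fin r × Fin (n + 1))).card := by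
    rw [Finset.card_univ, Fintype.card_prod, Fintype.card_fin, Fintype.card_fin]
    exact Nat.le_mul_of_pos_left _ hr
  obtain ⟨I', hII', -, hI'⟩ := Finset.exists_subsuperset_card_eq (Finset.subset_univ I) hI hcard
  rw [Polynomial.eval_prod] at hDh
  have h1 := hD I' hI' h hh (Finset.prod_ne_zero_iff.1 hDh I' (Finset.mem_filter.2 ⟨Finset.mem_univ _, hI'⟩))
  have h2 := h1.comp (fun i : I => (⟨i.1, hII' i.2⟩ : I')) fun i j hij => Subtype.ext (congrArg (fun x : I' => x.1) hij)
  exact h2

end Pool.Agent.SH4
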